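import Pool.Agent.Helper54.UN.St

/-!
# Project UN, part C, module VEL: labels near the vertex `1`
-/

set_option autoImplicit false

noncomputable section

namespace Pool.Agent.Helper15.UNC

open Set Filter Topology Pool.Agent.Helper71.UN Pool.Agent.Helper54.UN

private lemma near {f : ℂ → ℝ} (hf : Continuous f) {p : ℂ} (h : 0 < f p) :
    ∀ᶠ z in 𝓝 (0 : ℂ), 0 < f (p + z) := by
  have h1 : Continuous fun z : ℂ => f (p + z) := hf.comp (by fun_prop)
  exact evp h1 (by simpa using h)

private lemma nearn {f : ℂ → ℝ} (hf : Continuous f) {p : ℂ} (h : f p < 0) :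
    ∀ᶠ z in 𝓝 (0 : ℂ), f (p + z) < 0 := by
  have h1 : Continuous fun z : ℂ => f (p + z) := hf.comp (by fun_prop)
  exact evn h1 (by simpa using h)

private lemma lf_at (p q z : ℂ) : lf p q (p + z) = dt (q - p) z := by
  unfold lf
  rw [add_sub_cancel_left]

private lemma lf_end' (z : ℂ) : lf (-om) 1 (1 + z) = - dt (-(1 + om)) z := by
  simp only [lf_eq, dt_eq, Complex.neg_re, Complex.neg_im, Complex.add_re, Complex.add_im,
    Complex.one_re, Complex.one_im]
  ring

/-- **VEL**. -/
theorem hVEL (hU : StU) : StVEL := by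
  intro k l a b τ g hG
  have e1 := near continuous_el hG.ev
  have e2 := near (continuous_lf a om) hG.f1v
  have e3 := near (continuous_lf om (-1)) hG.f6v
  have e4 := near (continuous_lf b om) hG.f2v
  have e5 := nearn (continuous_lf a b) hG.gdv
  filter_upwards [e1, e2, e3, e4, e5] with z h1 h2 h3 h4 h5 o4 o5 o6
  rw [hU k l a b τ g hG _ h1]
  have i5 : lf 1 a (1 + z) = dt (a - 1) z := lf_at 1 a z
  have i4 : lf 1 b (1 + z) = dt (b - 1) z := lf_at 1 b z
  have i7 := lf_end' z
  have d4 := hG.d4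
  have d5 := hG.d5
  have d6 := hG.d6
  have n2 : ¬ lf b om (1 + z) < 0 := h4.le.not_gt
  have n3 : ¬ lf om (-1) (1 + z) < 0 := h3.le.not_gt
  unfold lamU
  rw [i5, i4, i7]
  simp only [h2, h3, h5, n2, n3, true_and, true_or, false_or, if_true]
  by_cases hz : 0 < z.re
  · have p4 := plu (b - 1) (-(1 + om)) z
    have p5 := plu (a - 1) (-(1 + om)) z
    have q4 := mul_pos hG.t46 hz
    have q5 := mul_pos hG.t56 hz
    have c1 : ¬ (0 < dt (a - 1) z ∧ 0 < - dt (-(1 + om)) z) := by
      rintro ⟨c1, c2⟩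
      nlinarith [mul_pos c1 (neg_pos.2 d6), mul_pos c2 (neg_pos.2 d5)]
    have c2 : dt (b - 1) z < 0 ∨ - dt (-(1 + om)) z < 0 := by
      by_contra hc
      rw [not_or, not_lt, not_lt] at hc
      nlinarith [mul_nonneg hc.1 (neg_pos.2 d6).le, mul_nonneg hc.2 (neg_pos.2 d4).le]
    rw [if_neg c1, if_pos c2]
    unfold stN
    rw [if_pos hz]
    split_ifs <;> rfl
  · have z0 : z.re ≤ 0 := not_lt.1 hz
    unfold stN
    rw [if_neg hz]
    by_cases s6 : 0 ≤ dt (-(1 + om)) z
    · rw [if_pos s6]
      have s6' : 0 < dt (-(1 + om)) z := by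
        rcases s6.lt_or_eq with s | s
        · exact s
        · exact absurd (ofr_pos d6 o6 s.symm) hz
      have c1 : ¬ (0 < dt (a - 1) z ∧ 0 < - dt (-(1 + om)) z) := fun c => by linarith [c.2]
      have c2 : dt (b - 1) z < 0 ∨ - dt (-(1 + om)) z < 0 := Or.inr (by linarith)
      rw [if_neg c1, if_pos c2]
      rfl
    · rw [if_neg s6]
      by_cases s5 : 0 ≤ dt (a - 1) z
      · rw [if_pos s5]
        have s5' : 0 < dt (a - 1) z := by
          rcases s5.lt_or_eq with s | s
          · exact s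
          · exact absurd (ofr_pos d5 o5 s.symm) hz
        rw [if_pos ⟨s5', by linarith [not_le.1 s6]⟩]
        rfl
      · rw [if_neg s5]
        have c1 : ¬ (0 < dt (a - 1) z ∧ 0 < - dt (-(1 + om)) z) := fun c => s5 c.1.le
        rw [if_neg c1]
        by_cases s4 : 0 ≤ dt (b - 1) z
        · rw [if_pos s4]
          have c2 : ¬ (dt (b - 1) z < 0 ∨ - dt (-(1 + om)) z < 0) := by
            rintro (c | c)
            · linarith
            · linarith [not_le.1 s6]
          rw [if_neg c2]
          rfl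
        · rw [if_neg s4, if_pos (Or.inl (not_le.1 s4))]
          rfl

end Pool.Agent.Helper15.UNC
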